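import Pool.Agent.V11237.Googol

/-!
The cardinal complexity of the game of googol is linear in `n` for every fixed `ε`.
-/

set_option autoImplicit false

open Pool.Agent.V11237.Googol

/-- For every `ε > 0` and every `n ≥ 2 + ⌈exp (2 / ε)⌉` there is an instance on `n`-subsets of
`{1, ..., N}` with `N = ⌈exp (2 / ε)⌉ n ≤ n ^ 2` on which every randomized online algorithm wins with
probability at most `1 / e + ε`. -/
theorem Pool.Agent.Results.MP_d38296_lc.LinearCardinal.result (ε : ℝ) (hε : 0 < ε) (n : ℕ)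
    (hn : 2 + ⌈Real.exp (2 / ε)⌉₊ ≤ n) :
    ∃ N : ℕ, N = ⌈Real.exp (2 / ε)⌉₊ * n ∧ N ≤ n ^ 2 ∧
      ∃ D : Finset ℕ → ℝ, IsInstance n N D ∧
        ∀ A : List ℕ → ℝ, IsAlgorithm A → winProb n N D A ≤ Real.exp (-1) + ε :=
  main ε hε n hn
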